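import Pool.Agent.helper7.DF.Spec
import Pool.Agent.helper18.LDH.KL
import Pool.Agent.helper1.UN.KDT

set_option autoImplicit false

open Finset

namespace Pool.Agent.DFO

open Pool.Agent.LDH (ee)

theorem KSM_norm_ee (x : ℝ) : ‖ee x‖ = 1 := Pool.Agent.LDH.KL_norm x

theorem KSM_triv (N a b : ℕ) (y : ℝ) (h1 : N ≤ a) (h3 : b ≤ 2 * N) :
    ‖∑ l ∈ Ioc a b, ee (y / l)‖ ≤ (N : ℝ) := by
  refine (norm_sum_le _ _).trans ?_
  simp only [KSM_norm_ee, sum_const, Nat.card_Ioc, nsmul_eq_mul, mul_one]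
  have : b - a ≤ N := by omega
  exact_mod_cast this

theorem KSM_diff (y : ℝ) (n : ℕ) (hn : 1 ≤ n) :
    y / ((n + 1 : ℕ) : ℝ) - y / (n : ℝ) = -(y / ((n : ℝ) * ((n : ℝ) + 1))) := by
  have h0 : (0 : ℝ) < n := by exact_mod_cast hn
  push_cast
  field_simp
  ring

theorem KSM_kl (N a b : ℕ) (y : ℝ) (hN : 2 ≤ N) (h1 : N ≤ a) (h3 : b ≤ 2 * N)
    (hy : (N : ℝ) ≤ y) (hy2 : y ≤ (N : ℝ) ^ (3 / 2 : ℝ)) :
    ‖∑ l ∈ Ioc a b, ee (y / l)‖ ≤ 8 * ((N : ℝ) ^ 2 / y) := by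
  have hN2 : (2 : ℝ) ≤ N := by exact_mod_cast hN
  have hN0 : (0 : ℝ) < N := by linarith
  have hy0 : 0 < y := hN0.trans_le hy
  have hq : 5 * y ≤ 4 * (N : ℝ) ^ 2 := by
    have e : ((N : ℝ) ^ (3 / 2 : ℝ)) ^ 2 = (N : ℝ) ^ 3 := by
      rw [← Real.rpow_natCast, ← Real.rpow_mul hN0.le, ← Real.rpow_natCast]
      norm_num
    have h5 : y ^ 2 ≤ (N : ℝ) ^ 3 := by
      rw [← e]
      exact pow_le_pow_left₀ hy0.le hy2 2
    have h6 : (0 : ℝ) < (N : ℝ) ^ 3 := by positivity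
    have h7 : (5 * y) ^ 2 ≤ (4 * (N : ℝ) ^ 2) ^ 2 := by
      have h8 : (4 * (N : ℝ) ^ 2) ^ 2 = 16 * (N : ℝ) * (N : ℝ) ^ 3 := by ring
      rw [h8]
      nlinarith
    exact le_of_sq_le_sq h7 (by positivity)
  have hD : (0 : ℝ) < 4 * (N : ℝ) ^ 2 := by positivity
  have hl : 0 < y / (4 * (N : ℝ) ^ 2) := by positivity
  refine (Pool.Agent.LDH.KL (fun n : ℕ => y / (n : ℝ)) a b (y / (4 * (N : ℝ) ^ 2)) (-1) hl ?_ ?_
    (Or.inl ?_)).trans (le_of_eq ?_)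
  · rw [div_le_iff₀ hD]
    linarith
  · intro n hn1 hn2
    have hn : 1 ≤ n := by omega
    have a1 : (N : ℝ) ≤ n := by exact_mod_cast (by omega : N ≤ n)
    have a2 : (n : ℝ) + 1 ≤ 2 * N := by exact_mod_cast (by omega : n + 1 ≤ 2 * N)
    have e := KSM_diff y n hn
    show (((-1 : ℤ) : ℝ) + y / (4 * (N : ℝ) ^ 2) ≤ y / ((n + 1 : ℕ) : ℝ) - y / (n : ℝ)) ∧
      (y / ((n + 1 : ℕ) : ℝ) - y / (n : ℝ) ≤ ((-1 : ℤ) : ℝ) + 1 - y / (4 * (N : ℝ) ^ 2))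
    rw [e]
    have n0 : (0 : ℝ) < n := by linarith
    have b1 : (N : ℝ) ^ 2 ≤ (n : ℝ) * ((n : ℝ) + 1) := by nlinarith
    have b2 : (n : ℝ) * ((n : ℝ) + 1) ≤ 4 * (N : ℝ) ^ 2 := by nlinarith
    have c1 : y / ((n : ℝ) * ((n : ℝ) + 1)) ≤ y / (N : ℝ) ^ 2 :=
      div_le_div_of_nonneg_left hy0.le (by positivity) b1
    have c2 : y / (4 * (N : ℝ) ^ 2) ≤ y / ((n : ℝ) * ((n : ℝ) + 1)) :=
      div_le_div_of_nonneg_left hy0.le (by positivity) b2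
    have c3 : y / (N : ℝ) ^ 2 + y / (4 * (N : ℝ) ^ 2) ≤ 1 := by
      have : y / (N : ℝ) ^ 2 + y / (4 * (N : ℝ) ^ 2) = 5 * y / (4 * (N : ℝ) ^ 2) := by
        field_simp
        ring
      rw [this, div_le_one hD]
      exact hq
    constructor
    · push_cast
      linarith
    · push_cast
      linarith
  · intro n hn1 hn2
    have hn : 1 ≤ n := by omega
    have e1 := KSM_diff y n hn
    have e2 := KSM_diff y (n + 1) (by omega)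
    show y / ((n + 1 : ℕ) : ℝ) - y / (n : ℝ) ≤ y / ((n + 2 : ℕ) : ℝ) - y / ((n + 1 : ℕ) : ℝ)
    have e3 : ((n + 1 + 1 : ℕ) : ℝ) = ((n + 2 : ℕ) : ℝ) := rfl
    rw [e3] at e2
    rw [e1, e2]
    have n0 : (0 : ℝ) < n := by exact_mod_cast hn
    apply neg_le_neg
    apply div_le_div_of_nonneg_left hy0.le (by positivity)
    push_cast
    nlinarith
  · field_simp
    norm_num

theorem KSM_dd_mul (r : ℕ) : ∀ (F : ℕ → ℝ) (c : ℝ) (n : ℕ),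
    Pool.Agent.UN.dd r (fun m => c * F m) n = c * Pool.Agent.UN.dd r F n := by
  induction r with
  | zero => intro F c n; rfl
  | succ r ih =>
    intro F c n
    show Pool.Agent.UN.dd r (fun m => c * F (m + 1) - c * F m) n =
      c * Pool.Agent.UN.dd r (fun m => F (m + 1) - F m) n
    rw [← ih]
    congr 1
    funext m
    ring

theorem KSM_sign (r a b : ℕ) (y : ℝ) :
    ‖∑ l ∈ Ioc a b, ee ((-1) ^ r * (y / l))‖ = ‖∑ l ∈ Ioc a b, ee (y / l)‖ := by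
  rcases Nat.even_or_odd r with h | h
  · rw [h.neg_one_pow]
    simp only [one_mul]
  · rw [h.neg_one_pow]
    have e : ∑ l ∈ Ioc a b, ee (-1 * (y / l)) = (starRingEnd ℂ) (∑ l ∈ Ioc a b, ee (y / l)) := by
      rw [map_sum]
      refine sum_congr rfl fun l _ => ?_
      rw [neg_one_mul, Pool.Agent.LDH.KL_neg]
    rw [e, RCLike.norm_conj]

theorem KSM_exp1 (Q : ℝ) (hQ : 4 ≤ Q) : 1 + -(1 / (Q - 2)) / 2 ≤ 1 - 1 / (2 * Q) := by
  have h1 : 0 < Q - 2 := by linarith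
  have h2 : 1 / (2 * Q) ≤ (1 / (Q - 2)) / 2 := by
    rw [div_div]
    apply one_div_le_one_div_of_le (by positivity)
    linarith
  linarith

theorem KSM_exp2 (Q : ℝ) (hQ : 4 ≤ Q) :
    (1 - 4 / Q) + (3 / 2) * (1 / (Q - 2)) ≤ 1 - 1 / (2 * Q) := by
  have h1 : 0 < Q - 2 := by linarith
  have h0 : 0 < Q := by linarith
  have h2 : 1 / (Q - 2) ≤ 2 * (1 / Q) := by
    rw [mul_one_div, div_le_div_iff₀ h1 h0]
    linarith
  have h3 : 4 / Q = 4 * (1 / Q) := by ring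
  have h4 : 1 / (2 * Q) = (1 / 2) * (1 / Q) := by
    field_simp
  have h5 : 0 < 1 / Q := by positivity
  rw [h3, h4]
  linarith

theorem KSM_r (hIDD : IDD_stmt) (r : ℕ) (hr : 2 ≤ r) : ∃ C : ℝ, 1 ≤ C ∧
    ∀ (N a b : ℕ) (y : ℝ), 1 ≤ N → N ≤ a → a ≤ b → b ≤ 2 * N →
      (N : ℝ) ^ ((r : ℝ) - 1 / 2) ≤ y → y ≤ (N : ℝ) ^ ((r : ℝ) + 1 / 2) →
      ‖∑ l ∈ Ioc a b, ee (y / l)‖ ≤ C * (N : ℝ) ^ (1 - 1 / 2 ^ (r + 1) : ℝ) := by
  obtain ⟨C₁, hC₁, H⟩ := Pool.Agent.UN.KDT r hr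
  have hfac : (1 : ℝ) ≤ (r.factorial : ℝ) := by exact_mod_cast Nat.factorial_pos r
  have hQ4 : (4 : ℝ) ≤ 2 ^ r := by
    calc (4 : ℝ) = 2 ^ 2 := by norm_num
      _ ≤ 2 ^ r := pow_le_pow_right₀ (by norm_num) hr
  obtain ⟨Q, hQ⟩ : ∃ Q : ℝ, Q = 2 ^ r := ⟨_, rfl⟩
  have hQ1 : (2 : ℝ) ^ (r + 1) = 2 * Q := by rw [hQ, pow_succ]; ring
  rw [← hQ] at hQ4
  refine ⟨C₁ * (2 * Q) * ((r.factorial : ℝ) + 2 * Q), ?_, ?_⟩
  · have : (1 : ℝ) ≤ C₁ * (2 * Q) := by nlinarith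
    nlinarith
  intro N a b y hN h1 h2 h3 hy1 hy2
  have hN1 : (1 : ℝ) ≤ N := by exact_mod_cast hN
  have hN0 : (0 : ℝ) < N := by linarith
  have hy0 : 0 < y := (Real.rpow_pos_of_pos hN0 _).trans_le hy1
  obtain ⟨l₀, hl₀⟩ : ∃ l₀ : ℝ, l₀ = (r.factorial : ℝ) * y / (2 * N) ^ (r + 1) := ⟨_, rfl⟩
  have hlpos : 0 < l₀ := by rw [hl₀]; positivity
  have hmul : (2 * (N : ℝ)) ^ (r + 1) = 2 * Q * (N : ℝ) ^ (r + 1) := by rw [mul_pow, hQ1]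
  have K := H (fun n : ℕ => (-1) ^ r * (y / (n : ℝ))) a b l₀ (2 * Q) h2 hlpos (by linarith) (by
    intro n hn1 hn2
    rw [KSM_dd_mul r (fun m : ℕ => y / (m : ℝ)) ((-1) ^ r) n]
    obtain ⟨i1, i2⟩ := hIDD r N n y hN hy0.le (by omega) (by omega)
    refine ⟨by rw [hl₀]; exact i1, i2.trans (le_of_eq ?_)⟩
    rw [hl₀, hmul]
    field_simp)
  have K2 : ‖∑ l ∈ Ioc a b, ee (y / l)‖ ≤ C₁ * (2 * Q) * (((b : ℝ) - a) * l₀ ^ (1 / (2 ^ r - 2) : ℝ) +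
    ((b : ℝ) - a) ^ (1 - 4 / 2 ^ r : ℝ) * l₀ ^ (-(1 / (2 ^ r - 2)) : ℝ)) := by
    rw [← KSM_sign r a b y]
    exact K
  rw [← hQ] at K2
  rw [hQ1]
  obtain ⟨θ, hθ⟩ : ∃ θ : ℝ, θ = 1 / (Q - 2) := ⟨_, rfl⟩
  rw [← hθ] at K2
  have hQ2 : 0 < Q - 2 := by linarith
  have hθ0 : 0 < θ := by rw [hθ]; positivity
  have hθ1 : θ ≤ 1 := by
    rw [hθ, div_le_one hQ2]
    linarith
  have hx0 : 0 ≤ (b : ℝ) - a := by
    have : (a : ℝ) ≤ b := by exact_mod_cast h2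
    linarith
  have hxN : (b : ℝ) - a ≤ N := by
    have : (b : ℝ) ≤ a + N := by exact_mod_cast (by omega : b ≤ a + N)
    linarith
  have hNpow : (N : ℝ) ^ (r + 1) = (N : ℝ) ^ ((r : ℝ) + 1) := by
    rw [← Real.rpow_natCast]
    norm_num
  have hNp0 : 0 < (N : ℝ) ^ (r + 1) := by positivity
  -- upper bound for l₀
  have hup : l₀ ≤ (r.factorial : ℝ) * (N : ℝ) ^ (-(1 / 2) : ℝ) := by
    rw [hl₀, hmul, div_le_iff₀ (by positivity)]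
    have e1 : (N : ℝ) ^ (-(1 / 2) : ℝ) * (N : ℝ) ^ (r + 1) = (N : ℝ) ^ ((r : ℝ) + 1 / 2) := by
      rw [hNpow, ← Real.rpow_add hN0]
      congr 1
      ring
    have e2 : (r.factorial : ℝ) * (N : ℝ) ^ (-(1 / 2) : ℝ) * (2 * Q * (N : ℝ) ^ (r + 1)) =
        (r.factorial : ℝ) * ((2 * Q) * ((N : ℝ) ^ (-(1 / 2) : ℝ) * (N : ℝ) ^ (r + 1))) := by ring
    rw [e2, e1]
    have p1 : 0 < (N : ℝ) ^ ((r : ℝ) + 1 / 2) := Real.rpow_pos_of_pos hN0 _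
    have p2 : y ≤ (2 * Q) * (N : ℝ) ^ ((r : ℝ) + 1 / 2) := by nlinarith
    exact mul_le_mul_of_nonneg_left p2 (by linarith)
  -- lower bound for l₀
  have hlo : (2 * Q)⁻¹ * (N : ℝ) ^ (-(3 / 2) : ℝ) ≤ l₀ := by
    rw [hl₀, hmul, le_div_iff₀ (by positivity)]
    have e1 : (N : ℝ) ^ (-(3 / 2) : ℝ) * (N : ℝ) ^ (r + 1) = (N : ℝ) ^ ((r : ℝ) - 1 / 2) := by
      rw [hNpow, ← Real.rpow_add hN0]
      congr 1
      ring
    have e2 : (2 * Q)⁻¹ * (N : ℝ) ^ (-(3 / 2) : ℝ) * (2 * Q * (N : ℝ) ^ (r + 1)) =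
        ((2 * Q)⁻¹ * (2 * Q)) * ((N : ℝ) ^ (-(3 / 2) : ℝ) * (N : ℝ) ^ (r + 1)) := by ring
    rw [e2, e1, inv_mul_cancel₀ (by positivity), one_mul]
    nlinarith
  have hb1 : l₀ ^ θ ≤ (r.factorial : ℝ) * (N : ℝ) ^ (-θ / 2) := by
    calc l₀ ^ θ ≤ ((r.factorial : ℝ) * (N : ℝ) ^ (-(1 / 2) : ℝ)) ^ θ :=
          Real.rpow_le_rpow hlpos.le hup hθ0.le
      _ = (r.factorial : ℝ) ^ θ * (N : ℝ) ^ (-θ / 2) := by
          rw [Real.mul_rpow (by positivity) (by positivity), ← Real.rpow_mul hN0.le]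
          congr 2
          ring
      _ ≤ (r.factorial : ℝ) * (N : ℝ) ^ (-θ / 2) := by
          refine mul_le_mul_of_nonneg_right ?_ (by positivity)
          calc (r.factorial : ℝ) ^ θ ≤ (r.factorial : ℝ) ^ (1 : ℝ) :=
                Real.rpow_le_rpow_of_exponent_le hfac hθ1
            _ = (r.factorial : ℝ) := Real.rpow_one _
  have hb2 : l₀ ^ (-θ) ≤ (2 * Q) * (N : ℝ) ^ ((3 / 2) * θ) := by
    have q0 : (0 : ℝ) < (2 * Q)⁻¹ * (N : ℝ) ^ (-(3 / 2) : ℝ) := by positivity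
    calc l₀ ^ (-θ) ≤ ((2 * Q)⁻¹ * (N : ℝ) ^ (-(3 / 2) : ℝ)) ^ (-θ) :=
          Real.rpow_le_rpow_of_nonpos q0 hlo (by linarith)
      _ = (2 * Q) ^ θ * (N : ℝ) ^ ((3 / 2) * θ) := by
          rw [Real.mul_rpow (by positivity) (by positivity), ← Real.rpow_mul hN0.le,
            Real.inv_rpow (by positivity), ← Real.rpow_neg (by positivity), neg_neg]
          congr 2
          ring
      _ ≤ (2 * Q) * (N : ℝ) ^ ((3 / 2) * θ) := by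
          refine mul_le_mul_of_nonneg_right ?_ (by positivity)
          calc (2 * Q) ^ θ ≤ (2 * Q) ^ (1 : ℝ) :=
                Real.rpow_le_rpow_of_exponent_le (by linarith) hθ1
            _ = 2 * Q := Real.rpow_one _
  have hE0 : 0 ≤ 1 - 4 / Q := by
    have : 4 / Q ≤ 1 := by
      rw [div_le_one (by linarith)]
      exact hQ4
    linarith
  have f1 : ((b : ℝ) - a) * l₀ ^ θ ≤ (r.factorial : ℝ) * (N : ℝ) ^ (1 - 1 / (2 * Q)) := by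
    calc ((b : ℝ) - a) * l₀ ^ θ ≤ N * ((r.factorial : ℝ) * (N : ℝ) ^ (-θ / 2)) :=
          mul_le_mul hxN hb1 (by positivity) (by positivity)
      _ = (r.factorial : ℝ) * (N : ℝ) ^ (1 + -θ / 2) := by
          rw [Real.rpow_add hN0, Real.rpow_one]
          ring
      _ ≤ (r.factorial : ℝ) * (N : ℝ) ^ (1 - 1 / (2 * Q)) := by
          refine mul_le_mul_of_nonneg_left ?_ (by positivity)
          apply Real.rpow_le_rpow_of_exponent_le hN1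
          rw [hθ]
          exact KSM_exp1 Q hQ4
  have f2 : ((b : ℝ) - a) ^ (1 - 4 / Q) * l₀ ^ (-θ) ≤ (2 * Q) * (N : ℝ) ^ (1 - 1 / (2 * Q)) := by
    calc ((b : ℝ) - a) ^ (1 - 4 / Q) * l₀ ^ (-θ)
        ≤ (N : ℝ) ^ (1 - 4 / Q) * ((2 * Q) * (N : ℝ) ^ ((3 / 2) * θ)) :=
          mul_le_mul (Real.rpow_le_rpow hx0 hxN hE0) hb2 (by positivity) (by positivity)
      _ = (2 * Q) * (N : ℝ) ^ ((1 - 4 / Q) + (3 / 2) * θ) := by
          rw [Real.rpow_add hN0]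
          ring
      _ ≤ (2 * Q) * (N : ℝ) ^ (1 - 1 / (2 * Q)) := by
          refine mul_le_mul_of_nonneg_left ?_ (by positivity)
          apply Real.rpow_le_rpow_of_exponent_le hN1
          rw [hθ]
          exact KSM_exp2 Q hQ4
  have hCQ : 0 ≤ C₁ * (2 * Q) := by positivity
  calc ‖∑ l ∈ Ioc a b, ee (y / l)‖ ≤ C₁ * (2 * Q) * (((b : ℝ) - a) * l₀ ^ θ +
        ((b : ℝ) - a) ^ (1 - 4 / Q) * l₀ ^ (-θ)) := K2
    _ ≤ C₁ * (2 * Q) * ((r.factorial : ℝ) * (N : ℝ) ^ (1 - 1 / (2 * Q)) +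
        (2 * Q) * (N : ℝ) ^ (1 - 1 / (2 * Q))) :=
        mul_le_mul_of_nonneg_left (add_le_add f1 f2) hCQ
    _ = C₁ * (2 * Q) * ((r.factorial : ℝ) + 2 * Q) * (N : ℝ) ^ (1 - 1 / (2 * Q)) := by ring

theorem KSM_P (hIDD : IDD_stmt) (A : ℕ) (hA : 1 ≤ A) : ∃ C : ℝ, 1 ≤ C ∧
    ∀ (N a b : ℕ) (y : ℝ), 1 ≤ N → N ≤ a → a ≤ b → b ≤ 2 * N →
      (N : ℝ) ≤ y → y ≤ (N : ℝ) ^ ((A : ℝ) + 1 / 2) →
      ‖∑ l ∈ Ioc a b, ee (y / l)‖ ≤ C * ((N : ℝ) ^ 2 / y + (N : ℝ) ^ (1 - 1 / 2 ^ (A + 1) : ℝ)) := by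
  induction A, hA using Nat.le_induction with
  | base =>
    refine ⟨8, by norm_num, ?_⟩
    intro N a b y hN h1 h2 h3 hy1 hy2
    have hN1 : (1 : ℝ) ≤ N := by exact_mod_cast hN
    have hN0 : (0 : ℝ) < N := by linarith
    have hy0 : 0 < y := hN0.trans_le hy1
    have q1 : 0 ≤ (N : ℝ) ^ 2 / y := by positivity
    have q2 : 0 ≤ (N : ℝ) ^ (1 - 1 / 2 ^ (1 + 1) : ℝ) := by positivity
    rcases Nat.lt_or_ge N 2 with h | h
    · have hN' : N = 1 := by omega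
      have t := KSM_triv N a b y h1 h3
      subst hN'
      simp only [Nat.cast_one, Real.one_rpow, one_pow] at t q1 q2 ⊢
      linarith
    · have e : ((1 : ℕ) : ℝ) + 1 / 2 = 3 / 2 := by norm_num
      rw [e] at hy2
      have := KSM_kl N a b y h h1 h3 hy1 hy2
      linarith
  | succ A hA ih =>
    obtain ⟨C, hC, H⟩ := ih
    obtain ⟨C', hC', H'⟩ := KSM_r hIDD (A + 1) (by omega)
    refine ⟨C + C', by linarith, ?_⟩
    intro N a b y hN h1 h2 h3 hy1 hy2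
    have hN1 : (1 : ℝ) ≤ N := by exact_mod_cast hN
    have hN0 : (0 : ℝ) < N := by linarith
    have hy0 : 0 < y := hN0.trans_le hy1
    have q1 : 0 ≤ (N : ℝ) ^ 2 / y := by positivity
    have q2 : 0 ≤ (N : ℝ) ^ (1 - 1 / 2 ^ (A + 1 + 1) : ℝ) := by positivity
    rcases le_total y ((N : ℝ) ^ ((A : ℝ) + 1 / 2)) with h | h
    · have t := H N a b y hN h1 h2 h3 hy1 h
      have m : (N : ℝ) ^ (1 - 1 / 2 ^ (A + 1) : ℝ) ≤ (N : ℝ) ^ (1 - 1 / 2 ^ (A + 1 + 1) : ℝ) := by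
        apply Real.rpow_le_rpow_of_exponent_le hN1
        have : (1 : ℝ) / 2 ^ (A + 1 + 1) ≤ 1 / 2 ^ (A + 1) := by
          apply one_div_le_one_div_of_le (by positivity)
          exact pow_le_pow_right₀ (by norm_num) (by omega)
        linarith
      calc ‖∑ l ∈ Ioc a b, ee (y / l)‖
          ≤ C * ((N : ℝ) ^ 2 / y + (N : ℝ) ^ (1 - 1 / 2 ^ (A + 1) : ℝ)) := t
        _ ≤ C * ((N : ℝ) ^ 2 / y + (N : ℝ) ^ (1 - 1 / 2 ^ (A + 1 + 1) : ℝ)) := by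
            refine mul_le_mul_of_nonneg_left ?_ (by linarith)
            linarith
        _ ≤ (C + C') * ((N : ℝ) ^ 2 / y + (N : ℝ) ^ (1 - 1 / 2 ^ (A + 1 + 1) : ℝ)) := by
            refine mul_le_mul_of_nonneg_right ?_ (by linarith)
            linarith
    · have e1 : (((A + 1 : ℕ) : ℝ)) - 1 / 2 = (A : ℝ) + 1 / 2 := by
        push_cast
        ring
      have t := H' N a b y hN h1 h2 h3 (by rw [e1]; exact h) hy2
      calc ‖∑ l ∈ Ioc a b, ee (y / l)‖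
          ≤ C' * (N : ℝ) ^ (1 - 1 / 2 ^ (A + 1 + 1) : ℝ) := t
        _ ≤ C' * ((N : ℝ) ^ 2 / y + (N : ℝ) ^ (1 - 1 / 2 ^ (A + 1 + 1) : ℝ)) := by
            refine mul_le_mul_of_nonneg_left ?_ (by linarith)
            linarith
        _ ≤ (C + C') * ((N : ℝ) ^ 2 / y + (N : ℝ) ^ (1 - 1 / 2 ^ (A + 1 + 1) : ℝ)) := by
            refine mul_le_mul_of_nonneg_right ?_ (by linarith)
            linarith

theorem KSM (hIDD : IDD_stmt) : KSM_stmt := by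
  intro A
  obtain ⟨C, hC, H⟩ := KSM_P hIDD (A + 1) (by omega)
  refine ⟨1 / 2 ^ (A + 1 + 1), C, by positivity, ?_, hC, ?_⟩
  · rw [div_le_one (by positivity)]
    exact one_le_pow₀ (by norm_num)
  intro N a b y hN h1 h2 h3 hy1 hy2
  have hN1 : (1 : ℝ) ≤ N := by exact_mod_cast hN
  refine H N a b y hN h1 h2 h3 hy1 (hy2.trans ?_)
  rw [← Real.rpow_natCast]
  apply Real.rpow_le_rpow_of_exponent_le hN1
  push_cast
  linarith

end Pool.Agent.DFO
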